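import Pool.Agent.Y560.TQ.Defs

set_option autoImplicit false

/-!
# Project TQ: basic facts on the decoding map and its invariance (TQ-DF)
-/

namespace Pool.Agent.Y672.TQ

open Pool.Agent.Y560.TH (XC IsoC MT)
open Pool.Agent.Y560.TQ

variable {Γ : Type}

/-- Basic facts on the decoding. -/
theorem t_QDF : S_QDF := by
  intro Γ _ y hy
  have hp : {k | Pq y k}.Infinite := hy.inf
  have hmem : ∀ m, Pq y (enq y m) := fun m => Nat.nth_mem_of_infinite hp m
  have hsur : ∀ k, Pq y k → ∃ m, enq y m = k := by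
    intro k hk
    classical
    exact ⟨Nat.count (fun k => Pq y k) k, Nat.nth_count hk⟩
  refine ⟨fun m n h => Nat.nth_injective hp h, hmem, hsur, fun γ m => ?_⟩
  have h1 : ∃ j, enq y j = y.2.1 γ (enq y m) := hsur _ (hy.cl γ _ (hmem m))
  change enq y (Nat.nth (fun j => enq y j = y.2.1 γ (enq y m)) 0) = _
  rw [Nat.nth_zero]
  exact Nat.sInf_mem h1

/-- The relation of the decoded structure. -/
theorem dq1 (y : XC Γ) (a b c d : ℕ) :
    (DQ y).1 a b c d = true ↔ ¬ meets (It y) (enq y a) (enq y b) (enq y c) (enq y d) := by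
  classical
  exact ⟨fun h => of_decide_eq_true h, fun h => decide_eq_true h⟩

/-- The paths meet in the image. -/
theorem meets_iso {y y' : XC Γ} {τ : Equiv.Perm ℕ} (h : IsoC τ y y') (a b c d : ℕ) :
    meets (It y') (τ a) (τ b) (τ c) (τ d) ↔ meets (It y) a b c d := by
  constructor
  · rintro ⟨m, hm⟩
    obtain ⟨m, rfl⟩ := τ.surjective m
    unfold It at hm
    rw [h.1, h.1] at hm
    exact ⟨m, hm⟩
  · rintro ⟨m, hm⟩
    refine ⟨τ m, ?_⟩
    unfold It
    rw [h.1, h.1]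
    exact hm

/-- Medians in the image. -/
theorem md_iso {y y' : XC Γ} {τ : Equiv.Perm ℕ} (h : IsoC τ y y') (a b c d : ℕ) :
    md (It y') (τ a) (τ b) (τ c) (τ d) ↔ md (It y) a b c d := by
  unfold md It
  rw [h.1, h.1, h.1]

/-- Points in the image. -/
theorem pq_iso {y y' : XC Γ} {τ : Equiv.Perm ℕ} (h : IsoC τ y y') (k : ℕ) :
    Pq y' (τ k) ↔ Pq y k := by
  unfold Pq
  rw [h.2.2]

/-- Median trees are preserved by isomorphisms. -/
theorem mt_iso [Group Γ] {y y' : XC Γ} {τ : Equiv.Perm ℕ} (h : IsoC τ y y') (hy : MT y) :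
    MT y' := by
  obtain ⟨h1, h2, h3⟩ := h
  refine ⟨?_, ?_, ?_, ?_, ?_, ?_, ?_, ?_⟩
  · intro a c
    obtain ⟨a, rfl⟩ := τ.surjective a
    obtain ⟨c, rfl⟩ := τ.surjective c
    rw [h1]
    exact hy.left a c
  · intro a b c
    obtain ⟨a, rfl⟩ := τ.surjective a
    obtain ⟨b, rfl⟩ := τ.surjective b
    obtain ⟨c, rfl⟩ := τ.surjective c
    rw [h1, h1]
    exact hy.symm a b c
  · intro a b c
    obtain ⟨a, rfl⟩ := τ.surjective a
    obtain ⟨b, rfl⟩ := τ.surjective b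
    obtain ⟨c, rfl⟩ := τ.surjective c
    rw [h1, h1]
    exact fun h4 h5 => congrArg τ (hy.anti a b c h4 h5)
  · intro a b c d
    obtain ⟨a, rfl⟩ := τ.surjective a
    obtain ⟨b, rfl⟩ := τ.surjective b
    obtain ⟨c, rfl⟩ := τ.surjective c
    obtain ⟨d, rfl⟩ := τ.surjective d
    rw [h1, h1, h1]
    exact hy.tree a b c d
  · intro a b c
    obtain ⟨a, rfl⟩ := τ.surjective a
    obtain ⟨b, rfl⟩ := τ.surjective b
    obtain ⟨c, rfl⟩ := τ.surjective c
    obtain ⟨m, hm⟩ := hy.med a b c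
    refine ⟨τ m, ?_⟩
    rw [h1, h1, h1]
    exact hm
  · intro m
    obtain ⟨m, rfl⟩ := τ.surjective m
    rw [h2, hy.one]
  · intro γ δ m
    obtain ⟨m, rfl⟩ := τ.surjective m
    rw [h2, h2, h2, hy.mul]
  · intro γ a b c
    obtain ⟨a, rfl⟩ := τ.surjective a
    obtain ⟨b, rfl⟩ := τ.surjective b
    obtain ⟨c, rfl⟩ := τ.surjective c
    rw [h2, h2, h2, h1, h1]
    exact hy.auto γ a b c

/-- Codes are preserved by isomorphisms. -/
theorem gq_iso [Group Γ] {y y' : XC Γ} {τ : Equiv.Perm ℕ} (h : IsoC τ y y') (hy : GQ y) :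
    GQ y' := by
  refine ⟨mt_iso h hy.mt, ?_, ?_, ?_, ?_⟩
  · refine (hy.inf.image τ.injective.injOn).mono ?_
    rintro _ ⟨k, hk, rfl⟩
    exact (pq_iso h k).mpr hk
  · intro γ k hk
    obtain ⟨k, rfl⟩ := τ.surjective k
    rw [h.2.1]
    exact (pq_iso h _).mpr (hy.cl γ k ((pq_iso h k).mp hk))
  · intro k
    obtain ⟨k, rfl⟩ := τ.surjective k
    obtain ⟨a, b, c, ha, hb, hc, hm⟩ := hy.gen k
    exact ⟨τ a, τ b, τ c, (pq_iso h a).mpr ha, (pq_iso h b).mpr hb, (pq_iso h c).mpr hc,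
      (md_iso h a b c k).mpr hm⟩
  · intro i k hk
    obtain ⟨k, rfl⟩ := τ.surjective k
    rw [h.2.2] at hk
    exact (pq_iso h k).mpr (hy.sub i k hk)

/-- Invariance of the codes. -/
theorem t_QIN : S_QIN := by
  intro Γ _ y y' τ hy h
  have hy' : GQ y' := gq_iso h hy
  have D := t_QDF Γ y hy
  have D' := t_QDF Γ y' hy'
  refine ⟨hy', ?_⟩
  have hex : ∀ m, ∃ n, enq y' n = τ (enq y m) := fun m =>
    D'.sur _ ((pq_iso h _).mpr (D.mem m))
  choose f hf using hex
  have hfb : Function.Bijective f := by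
    constructor
    · intro m n hmn
      have h1 := hf m
      rw [hmn, hf n] at h1
      exact (D.inj _ _ (τ.injective h1)).symm
    · intro n
      have h1 := D'.mem n
      have h2 : Pq y (τ.symm (enq y' n)) := by
        rw [← pq_iso h, Equiv.apply_symm_apply]
        exact h1
      obtain ⟨m, hm⟩ := D.sur _ h2
      refine ⟨m, D'.inj _ _ ?_⟩
      rw [hf m, hm, Equiv.apply_symm_apply]
  refine ⟨Equiv.ofBijective f hfb, ?_, ?_, ?_⟩
  · intro a b c d
    change (DQ y').1 (f a) (f b) (f c) (f d) = (DQ y).1 a b c d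
    rw [Bool.eq_iff_iff, dq1, dq1, hf, hf, hf, hf, meets_iso h]
  · intro γ m
    change (DQ y').2.1 γ (f m) = f ((DQ y).2.1 γ m)
    apply D'.inj
    rw [D'.act, hf, hf, D.act, h.2.1]
  · intro i m
    change y'.2.2 (i + 1) (enq y' (f m)) = y.2.2 (i + 1) (enq y m)
    rw [hf, h.2.2]

end Pool.Agent.Y672.TQ
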