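import Pool.Agent.Y672.TQ.Dec

set_option autoImplicit false

/-!
# Project TQ: uniqueness of the generated median tree (TQ-UN)
-/

namespace Pool.Agent.Y672.TQ

open Pool.Agent.Y560.TH (XC IsoC MT)
open Pool.Agent.Y560.TQ

variable {Γ : Type}

/-- The tree of a code is a median tree. -/
theorem mtr_of [Group Γ] {y : XC Γ} (h : MT y) : Mtr (It y) :=
  ⟨h.left, h.symm, h.anti, h.tree, h.med⟩

/-- `u` in the second tree corresponds to `k` in the first. -/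
def Rel (y y' : XC Γ) (φ : ℕ → ℕ) (k u : ℕ) : Prop :=
  ∃ a b c, Pq y a ∧ Pq y b ∧ Pq y c ∧ md (It y) a b c k ∧ md (It y') (φ a) (φ b) (φ c) u

/-- The map of the points. -/
structure Mp (y y' : XC Γ) (φ : ℕ → ℕ) : Prop where
  mem : ∀ k, Pq y k → Pq y' (φ k)
  mee : ∀ a b c d, Pq y a → Pq y b → Pq y c → Pq y d →
    (meets (It y') (φ a) (φ b) (φ c) (φ d) ↔ meets (It y) a b c d)
  act : ∀ γ a, Pq y a → φ (y.2.1 γ a) = y'.2.1 γ (φ a)
  prd : ∀ i a, Pq y a → y'.2.2 (i + 1) (φ a) = y.2.2 (i + 1) a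
  sur : ∀ k, Pq y' k → ∃ a, Pq y a ∧ φ a = k

/-- The map exists. -/
theorem mp_ex [Group Γ] {y y' : XC Γ} {σ : Equiv.Perm ℕ} (D : DFQ y) (D' : DFQ y')
    (h : IsoQ σ (DQ y) (DQ y')) : ∃ φ : ℕ → ℕ, Mp y y' φ := by
  classical
  have hex : ∀ k, ∃ u, ∀ m, enq y m = k → u = enq y' (σ m) := by
    intro k
    by_cases hk : ∃ m, enq y m = k
    · obtain ⟨m, hm⟩ := hk
      refine ⟨enq y' (σ m), fun n hn => ?_⟩
      rw [D.inj m n (hm.trans hn.symm)]
    · exact ⟨0, fun m hm => (hk ⟨m, hm⟩).elim⟩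
  choose φ hφ using hex
  have hφ' : ∀ m, φ (enq y m) = enq y' (σ m) := fun m => hφ _ m rfl
  refine ⟨φ, ⟨?_, ?_, ?_, ?_, ?_⟩⟩
  · intro k hk
    obtain ⟨m, rfl⟩ := D.sur k hk
    rw [hφ']
    exact D'.mem _
  · intro a b c d ha hb hc hd
    obtain ⟨a, rfl⟩ := D.sur a ha
    obtain ⟨b, rfl⟩ := D.sur b hb
    obtain ⟨c, rfl⟩ := D.sur c hc
    obtain ⟨d, rfl⟩ := D.sur d hd
    rw [hφ', hφ', hφ', hφ', ← not_iff_not, ← dq1, ← dq1, h.1]
  · intro γ a ha
    obtain ⟨a, rfl⟩ := D.sur a ha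
    rw [← D.act, hφ', hφ', ← D'.act, h.2.1]
  · intro i a ha
    obtain ⟨a, rfl⟩ := D.sur a ha
    rw [hφ']
    exact h.2.2 i a
  · intro k hk
    obtain ⟨n, rfl⟩ := D'.sur k hk
    refine ⟨enq y (σ.symm n), D.mem _, ?_⟩
    rw [hφ', Equiv.apply_symm_apply]

/-- The points on a path between points. -/
theorem rel_betw {y y' : XC Γ} {φ : ℕ → ℕ} (G : GEO (It y)) (G' : GEO (It y')) (H : Mp y y' φ)
    {k u p q : ℕ} (hr : Rel y y' φ k u) (hp : Pq y p) (hq : Pq y q) :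
    It y' (φ p) u (φ q) ↔ It y p k q := by
  obtain ⟨a, b, c, ha, hb, hc, h1, h2⟩ := hr
  rw [G.helly a b c k p q h1, G'.helly _ _ _ u _ _ h2, H.mee p q a b hp hq ha hb,
    H.mee p q b c hp hq hb hc, H.mee p q a c hp hq ha hc]

/-- The relation is the graph of an injective function. -/
theorem rel_iff {y y' : XC Γ} {φ : ℕ → ℕ} (G : GEO (It y)) (G' : GEO (It y')) (H : Mp y y' φ)
    {k u k' u' : ℕ} (hr : Rel y y' φ k u) (hr' : Rel y y' φ k' u') : k = k' ↔ u = u' := by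
  obtain ⟨a, b, c, ha, hb, hc, h1, h2⟩ := hr
  have h3 : k = k' ↔ md (It y) a b c k' := by
    constructor
    · rintro rfl
      exact h1
    · exact fun h => G.uniq a b c k k' h1 h
  have h4 : u = u' ↔ md (It y') (φ a) (φ b) (φ c) u' := by
    constructor
    · rintro rfl
      exact h2
    · exact fun h => G'.uniq _ _ _ u u' h2 h
  rw [h3, h4]
  unfold md
  rw [rel_betw G G' H hr' ha hb, rel_betw G G' H hr' hb hc, rel_betw G G' H hr' ha hc]

/-- Uniqueness of the generated tree. -/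
theorem t_QUN (hG : S_GEO) (h : S_QDF) : S_QUN := by
  intro Γ _ y y' σ hy hy' hσ
  have D := h Γ y hy
  have D' := h Γ y' hy'
  have G := hG ℕ (It y) (mtr_of hy.mt)
  have G' := hG ℕ (It y') (mtr_of hy'.mt)
  obtain ⟨φ, H⟩ := mp_ex D D' hσ
  have hex : ∀ k, ∃ u, Rel y y' φ k u := by
    intro k
    obtain ⟨a, b, c, ha, hb, hc, hm⟩ := hy.gen k
    obtain ⟨u, hu⟩ := hy'.mt.med (φ a) (φ b) (φ c)
    exact ⟨u, a, b, c, ha, hb, hc, hm, hu⟩
  have hsur : ∀ u, ∃ k, Rel y y' φ k u := by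
    intro u
    obtain ⟨a, b, c, ha, hb, hc, hm⟩ := hy'.gen u
    obtain ⟨a, ha', rfl⟩ := H.sur a ha
    obtain ⟨b, hb', rfl⟩ := H.sur b hb
    obtain ⟨c, hc', rfl⟩ := H.sur c hc
    obtain ⟨k, hk⟩ := hy.mt.med a b c
    exact ⟨k, a, b, c, ha', hb', hc', hk, hm⟩
  choose f hf using hex
  have hfb : Function.Bijective f := by
    constructor
    · intro k k' hkk
      exact (rel_iff G G' H (hf k) (hf k')).mpr hkk
    · intro u
      obtain ⟨k, hk⟩ := hsur u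
      exact ⟨k, (rel_iff G G' H (hf k) hk).mp rfl⟩
  have hfφ : ∀ k, Pq y k → f k = φ k := by
    intro k hk
    refine (rel_iff G G' H (hf k) ?_).mp rfl
    exact ⟨k, k, k, hk, hk, hk, ⟨hy.mt.left k k, hy.mt.left k k, hy.mt.left k k⟩,
      ⟨hy'.mt.left _ _, hy'.mt.left _ _, hy'.mt.left _ _⟩⟩
  have hPq : ∀ k, Pq y' (f k) ↔ Pq y k := by
    intro k
    constructor
    · intro hk
      obtain ⟨k', hk', h1⟩ := H.sur _ hk
      rw [← hfφ k' hk'] at h1
      rw [← hfb.1 h1]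
      exact hk'
    · intro hk
      rw [hfφ k hk]
      exact H.mem k hk
  refine ⟨Equiv.ofBijective f hfb, ?_, ?_, ?_⟩
  · intro k l m
    change y'.1 (f k) (f l) (f m) = y.1 k l m
    rw [Bool.eq_iff_iff]
    change It y' (f k) (f l) (f m) ↔ It y k l m
    rw [G.betw (Pq y) hy.gen, G'.betw (Pq y') hy'.gen]
    constructor
    · intro h1 p q hp hq h2 h3
      rw [← rel_betw G G' H (hf _) hp hq] at h2 h3 ⊢
      exact h1 _ _ (H.mem p hp) (H.mem q hq) h2 h3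
    · intro h1 p q hp hq h2 h3
      obtain ⟨p, hp', rfl⟩ := H.sur p hp
      obtain ⟨q, hq', rfl⟩ := H.sur q hq
      rw [rel_betw G G' H (hf _) hp' hq'] at h2 h3 ⊢
      exact h1 p q hp' hq' h2 h3
  · intro γ k
    change y'.2.1 γ (f k) = f (y.2.1 γ k)
    refine (rel_iff G G' H ?_ (hf (y.2.1 γ k))).mp rfl
    obtain ⟨a, b, c, ha, hb, hc, h1, h2⟩ := hf k
    refine ⟨y.2.1 γ a, y.2.1 γ b, y.2.1 γ c, hy.cl γ a ha, hy.cl γ b hb, hy.cl γ c hc,
      ⟨hy.mt.auto γ _ _ _ h1.1, hy.mt.auto γ _ _ _ h1.2.1, hy.mt.auto γ _ _ _ h1.2.2⟩, ?_⟩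
    rw [H.act γ a ha, H.act γ b hb, H.act γ c hc]
    exact ⟨hy'.mt.auto γ _ _ _ h2.1, hy'.mt.auto γ _ _ _ h2.2.1, hy'.mt.auto γ _ _ _ h2.2.2⟩
  · intro i k
    change y'.2.2 i (f k) = y.2.2 i k
    cases i with
    | zero =>
      rw [Bool.eq_iff_iff]
      exact hPq k
    | succ i =>
      by_cases hk : Pq y k
      · rw [hfφ k hk]
        exact H.prd i k hk
      · have h1 : y.2.2 (i + 1) k = false := by
          rw [← Bool.not_eq_true]
          exact fun h2 => hk (hy.sub i k h2)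
        have h2 : y'.2.2 (i + 1) (f k) = false := by
          rw [← Bool.not_eq_true]
          exact fun h2 => hk ((hPq k).mp (hy'.sub i _ h2))
        rw [h1, h2]

end Pool.Agent.Y672.TQ
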